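import Pool.Agent.HamPaths6b8b27.Count
import Pool.Agent.HamPaths6b8b27.Cert
import Pool.Agent.HamPaths6b8b27.Small

/-!
# MP_6b8b27_co : families of Hamiltonian paths with Hamiltonian pairwise unions

For every `n ≥ 3` the largest size of a family of Hamiltonian paths on `n` vertices such that the
union of any two of them contains a Hamiltonian cycle is `n.choose 2`.

The family for `n ≥ 9`: the vertices are the residues modulo `n`, and there is one path `P(x,y)` for
each pair `x, y`.  If the distance of `x` and `y` is at least 4, then `P(x,y)` is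

  `x, (y+2, ..., x-2), y-1, x+1, y+1, x-1, (y-2, ..., x+2), y`

where the first block ascends and the second descends (going from `x` to `y` upwards is one side
and from `y` to `x` upwards is the other side of the cycle of the residues).  For the distances 1,
2, 3 it is

  `x, x-1, x-2, x+2, x+3, (x-3, ..., x+4), x+1`,
  `x, (x+5, ..., x-3), x+1, x-1, x+4, x-2, x+3, x+2`,
  `x, x+4, x-2, x-1, x+2, (x+6, ..., x-3), x+1, x+5, x+3`.

An edge `u, u+1` inside a block of both paths is called free.  By induction on `n`, the union of any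
two of these paths has a Hamiltonian cycle containing all the free edges: if two consecutive edges
are free, one can delete their common vertex; the configurations without consecutive free edges
have `n ≤ 20` and were checked.
-/

set_option autoImplicit false
set_option maxHeartbeats 4000000
set_option linter.unusedVariables false

namespace Pool.Agent.Results.MP_6b8b27_co.HamPathFamilies

open Pool.Agent.HamPaths6b8b27

/-! ### The family for `n ≥ 9` -/

/-- the first endpoint of the path of the pair `p.2 < p.1` -/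
def off (n : ℕ) (p : Σ _ : ℕ, ℕ) : ℕ := if p.1 - p.2 + 4 ≤ n then p.2 else p.1

/-- the distance of the endpoints -/
def dst (n : ℕ) (p : Σ _ : ℕ, ℕ) : ℕ := if p.1 - p.2 + 4 ≤ n then p.1 - p.2 else n - (p.1 - p.2)

/-- the position function of the path of the pair `p.2 < p.1` -/
def posn (n : ℕ) (p : Σ _ : ℕ, ℕ) (v : ℕ) : ℕ := rk n (dst n p) (sub n v (off n p))

/-- the index set -/
def idx (n : ℕ) : Finset (Σ _ : ℕ, ℕ) := (Finset.range n).sigma (fun j => Finset.range j)

theorem mem_idx {n : ℕ} {p : Σ _ : ℕ, ℕ} : p ∈ idx n ↔ p.1 < n ∧ p.2 < p.1 := by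
  unfold idx
  rw [Finset.mem_sigma, Finset.mem_range, Finset.mem_range]

theorem card_idx (n : ℕ) : (idx n).card = n.choose 2 := by
  unfold idx
  rw [Finset.card_sigma]
  simp only [Finset.card_range]
  rw [Finset.sum_range_id, Nat.choose_two_right]

/-- `v + o` modulo `n` -/
def addm (n v o : ℕ) : ℕ := if v + o < n then v + o else v + o - n

theorem sys_big {n : ℕ} (hn : 9 ≤ n) : Sys n (idx n) (posn n) := by
  have hok : ∀ p ∈ idx n, 1 ≤ dst n p ∧ dst n p + 4 ≤ n ∧ off n p < n := by
    intro p hp
    rw [mem_idx] at hp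
    unfold dst off
    split_ifs <;> omega
  refine ⟨?_, ?_, ?_⟩
  · intro p hp v hv
    obtain ⟨h1, h2, h3⟩ := hok p hp
    have hs : sub n v (off n p) < n := by unfold sub; split_ifs <;> omega
    exact rk_lt hn h2 hs
  · intro p hp u hu v hv huv
    obtain ⟨h1, h2, h3⟩ := hok p hp
    have su : sub n u (off n p) < n := by unfold sub; split_ifs <;> omega
    have sv : sub n v (off n p) < n := by unfold sub; split_ifs <;> omega
    have := rk_inj hn h2 su sv huv
    unfold sub at this
    split_ifs at this <;> omega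
  · intro t ht s hs hst
    obtain ⟨a1, a2, a3⟩ := hok s hs
    obtain ⟨b1, b2, b3⟩ := hok t ht
    have hval : Valid n (dst n s) (sub n (off n t) (off n s)) (dst n t) := by
      refine ⟨a1, a2, b1, b2, ?_, ?_, ?_⟩
      · unfold sub; split_ifs <;> omega
      · rintro ⟨c1, c2⟩
        apply hst
        have c3 : off n s = off n t := by
          unfold sub at c1
          split_ifs at c1 <;> omega
        rw [mem_idx] at ht hs
        obtain ⟨t1, t2⟩ := t
        obtain ⟨s1, s2⟩ := s
        unfold off at c3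
        unfold dst at c2
        simp only at *
        have : s1 = t1 ∧ s2 = t2 := by
          split_ifs at c2 c3 <;> omega
        rw [this.1, this.2]
      · rintro ⟨c1, c2⟩
        rw [mem_idx] at ht hs
        unfold sub at c2
        unfold off at c2
        unfold dst at c1 c2
        split_ifs at c1 c2 <;> omega
    obtain ⟨f, f1, f2, f3, -⟩ := good_all base n hn _ _ _ hval
    refine ⟨fun i => addm n (f i) (off n s), ?_, ?_, ?_⟩
    · intro i hi
      have := f1 i hi
      show addm n (f i) (off n s) < n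
      unfold addm
      split_ifs <;> omega
    · intro i hi j hj hij
      have h1 := f1 i hi
      have h2 := f1 j hj
      apply f2 i hi j hj
      have hij' : addm n (f i) (off n s) = addm n (f j) (off n s) := hij
      unfold addm at hij'
      split_ifs at hij' <;> omega
    · intro i hi
      have hnx : nx n i < n := by unfold nx; split_ifs <;> omega
      have h0 := f3 i hi
      have e1 : ∀ v < n, sub n (addm n v (off n s)) (off n s) = v := by
        intro v hv
        unfold sub addm
        split_ifs <;> omega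
      have e2 : ∀ v < n, sub n (addm n v (off n s)) (off n t) =
          sub n v (sub n (off n t) (off n s)) := by
        intro v hv
        generalize off n s = x at *
        generalize off n t = y at *
        unfold sub addm
        split_ifs <;> omega
      have g1 := f1 i hi
      have g2 := f1 _ hnx
      show Adj2 (posn n s) (posn n t) (addm n (f i) (off n s)) (addm n (f (nx n i)) (off n s))
      unfold Adj2 posn at *
      rw [e1 _ g1, e1 _ g2, e2 _ g1, e2 _ g2]
      exact h0

/-! ### Graphs -/

/-- the graph of the path with position function `r` -/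
def PG (n : ℕ) (r : ℕ → ℕ) : SimpleGraph (Fin n) where
  Adj u v := r u.val + 1 = r v.val ∨ r v.val + 1 = r u.val
  symm := ⟨fun u v h => Or.symm h⟩
  loopless := ⟨fun u h => by omega⟩

theorem PG_iso {n : ℕ} {r : ℕ → ℕ} (h1 : ∀ v < n, r v < n)
    (h2 : ∀ u < n, ∀ v < n, r u = r v → u = v) :
    Nonempty (PG n r ≃g SimpleGraph.pathGraph n) := by
  let φ : Fin n → Fin n := fun v => ⟨r v.val, h1 v.val v.isLt⟩
  have hφ : Function.Injective φ := by
    intro u v huv
    exact Fin.ext (h2 u.val u.isLt v.val v.isLt (congrArg Fin.val huv))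
  refine ⟨⟨Equiv.ofBijective φ (Finite.injective_iff_bijective.mp hφ), ?_⟩⟩
  intro u v
  rw [SimpleGraph.pathGraph_adj]
  rfl

theorem cyc_succ {n : ℕ} {u v : Fin n} (h : (u - v).val = 1) : u.val = nx n v.val := by
  have h1 := u.isLt
  have h2 := v.isLt
  rw [Fin.sub_def] at h
  have h' : (n - v.val + u.val) % n = 1 := h
  unfold nx
  by_cases h3 : n - v.val + u.val < n
  · rw [Nat.mod_eq_of_lt h3] at h'
    split_ifs <;> omega
  · rw [Nat.mod_eq_sub_mod (by omega), Nat.mod_eq_of_lt (by omega)] at h'
    split_ifs <;> omega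

theorem contained_of {n : ℕ} {r s : ℕ → ℕ} {f : ℕ → ℕ} (f1 : ∀ i < n, f i < n)
    (f2 : ∀ i < n, ∀ j < n, f i = f j → i = j) (f3 : ∀ i < n, Adj2 r s (f i) (f (nx n i))) :
    (SimpleGraph.cycleGraph n).IsContained (PG n r ⊔ PG n s) := by
  have hadj : ∀ i : Fin n, ∀ j : Fin n, j.val = nx n i.val →
      (PG n r ⊔ PG n s).Adj ⟨f i.val, f1 _ i.isLt⟩ ⟨f j.val, f1 _ j.isLt⟩ := by
    intro i j hij
    rw [SimpleGraph.sup_adj]
    have h := f3 i.val i.isLt
    rw [← hij] at h
    exact h
  refine ⟨⟨⟨fun i => ⟨f i.val, f1 _ i.isLt⟩, ?_⟩, ?_⟩⟩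
  · intro u v huv
    rw [SimpleGraph.cycleGraph_adj'] at huv
    rcases huv with h | h
    · exact (hadj v u (cyc_succ h)).symm
    · exact hadj u v (cyc_succ h)
  · intro u v huv
    exact Fin.ext (f2 _ u.isLt _ v.isLt (congrArg Fin.val huv))

/-- In a graph containing a Hamiltonian cycle each vertex has two neighbours. -/
theorem two_nbrs {n : ℕ} (hn : 3 ≤ n) {G : SimpleGraph (Fin n)}
    (h : (SimpleGraph.cycleGraph n).IsContained G) (v : Fin n) :
    ∃ a b, a ≠ b ∧ G.Adj v a ∧ G.Adj v b := by
  obtain ⟨c⟩ := h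
  obtain ⟨m, rfl⟩ : ∃ m, n = m + 3 := ⟨n - 3, by omega⟩
  obtain ⟨i, hi⟩ := (Finite.injective_iff_bijective.mp c.injective').2 v
  have hd := SimpleGraph.cycleGraph_degree_three_le (v := i)
  rw [← SimpleGraph.card_neighborFinset_eq_degree, Finset.card_eq_two] at hd
  obtain ⟨x, y, hxy, hN⟩ := hd
  have hx : (SimpleGraph.cycleGraph (m+3)).Adj i x := by
    rw [← SimpleGraph.mem_neighborFinset, hN]; simp
  have hy : (SimpleGraph.cycleGraph (m+3)).Adj i y := by
    rw [← SimpleGraph.mem_neighborFinset, hN]; simp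
  refine ⟨c.toHom x, c.toHom y, fun e => hxy (c.injective' e), ?_, ?_⟩
  · rw [← hi]; exact c.toHom.map_adj hx
  · rw [← hi]; exact c.toHom.map_adj hy

/-- `v` is an end vertex of `P`, and `u` is its only neighbour -/
def EndEdge {n : ℕ} (P : SimpleGraph (Fin n)) (v u : Fin n) : Prop := ∀ x, P.Adj v x ↔ x = u

theorem ends_of_path {n : ℕ} (hn : 3 ≤ n) {P : SimpleGraph (Fin n)}
    (h : Nonempty (P ≃g SimpleGraph.pathGraph n)) :
    ∃ v u v' u', EndEdge P v u ∧ EndEdge P v' u' ∧ v ≠ v' := by
  obtain ⟨e⟩ := h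
  refine ⟨e.symm ⟨0, by omega⟩, e.symm ⟨1, by omega⟩, e.symm ⟨n-1, by omega⟩,
    e.symm ⟨n-2, by omega⟩, ?_, ?_, ?_⟩
  · intro x
    rw [← e.map_adj_iff, e.apply_symm_apply, SimpleGraph.pathGraph_adj]
    constructor
    · intro h
      rw [← e.symm_apply_apply x]
      congr 1
      apply Fin.ext
      show (e x).val = 1
      simp only at h
      omega
    · intro h
      rw [h, e.apply_symm_apply]
      simp
  · intro x
    rw [← e.map_adj_iff, e.apply_symm_apply, SimpleGraph.pathGraph_adj]
    constructor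
    · intro h
      rw [← e.symm_apply_apply x]
      congr 1
      apply Fin.ext
      show (e x).val = n - 2
      have := (e x).isLt
      simp only at h
      omega
    · intro h
      rw [h, e.apply_symm_apply]
      simp only
      omega
  · intro h
    have := congrArg Fin.val (e.symm.injective h)
    simp only at this
    omega

theorem not_contained {n : ℕ} (hn : 3 ≤ n) {P Q : SimpleGraph (Fin n)} {v u : Fin n}
    (hP : EndEdge P v u) (hQ : EndEdge Q v u) :
    ¬ (SimpleGraph.cycleGraph n).IsContained (P ⊔ Q) := by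
  intro h
  obtain ⟨a, b, hab, ha, hb⟩ := two_nbrs hn h v
  rw [SimpleGraph.sup_adj, hP, hQ, or_self] at ha hb
  exact hab (ha.trans hb.symm)

theorem family_of_sys {n : ℕ} (hn : 3 ≤ n) {ι : Type} {I : Finset ι} {R : ι → ℕ → ℕ}
    (h : Sys n I R) : ∃ F : Finset (SimpleGraph (Fin n)), F.card = I.card ∧
      (∀ P ∈ F, Nonempty (P ≃g SimpleGraph.pathGraph n)) ∧
      (∀ P ∈ F, ∀ Q ∈ F, P ≠ Q → (SimpleGraph.cycleGraph n).IsContained (P ⊔ Q)) := by
  classical
  obtain ⟨h1, h2, h3⟩ := h
  have hiso : ∀ t ∈ I, Nonempty (PG n (R t) ≃g SimpleGraph.pathGraph n) := fun t ht =>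
    PG_iso (h1 t ht) (h2 t ht)
  have hcont : ∀ t ∈ I, ∀ s ∈ I, s ≠ t →
      (SimpleGraph.cycleGraph n).IsContained (PG n (R s) ⊔ PG n (R t)) := by
    intro t ht s hs hst
    obtain ⟨f, f1, f2, f3⟩ := h3 t ht s hs hst
    exact contained_of f1 f2 f3
  refine ⟨I.image (fun t => PG n (R t)), ?_, ?_, ?_⟩
  · apply Finset.card_image_of_injOn
    intro s hs t ht hst
    by_contra hne
    have hc := hcont t ht s hs hne
    obtain ⟨v, u, v', u', e1, -, -⟩ := ends_of_path hn (hiso s hs)
    have hst' : PG n (R s) = PG n (R t) := hst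
    have e2 : EndEdge (PG n (R t)) v u := by rw [← hst']; exact e1
    exact not_contained hn e1 e2 hc
  · intro P hP
    obtain ⟨t, ht, rfl⟩ := Finset.mem_image.mp hP
    exact hiso t ht
  · intro P hP Q hQ hPQ
    obtain ⟨s, hs, rfl⟩ := Finset.mem_image.mp hP
    obtain ⟨t, ht, rfl⟩ := Finset.mem_image.mp hQ
    exact hcont t ht s hs (fun e => hPQ (by rw [e]))

/-- the upper bound -/
theorem upper {n : ℕ} (hn : 3 ≤ n) (F : Finset (SimpleGraph (Fin n)))
    (h1 : ∀ P ∈ F, Nonempty (P ≃g SimpleGraph.pathGraph n))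
    (h2 : ∀ P ∈ F, ∀ Q ∈ F, P ≠ Q → (SimpleGraph.cycleGraph n).IsContained (P ⊔ Q)) :
    F.card ≤ n.choose 2 := by
  classical
  let D : SimpleGraph (Fin n) → Finset (Fin n × Fin n) := fun P =>
    Finset.univ.filter (fun p => EndEdge P p.1 p.2)
  have hD : ∀ P p, p ∈ D P ↔ EndEdge P p.1 p.2 := fun P p => by simp [D]
  have hcard : ∀ P ∈ F, 2 ≤ (D P).card := by
    intro P hP
    obtain ⟨v, u, v', u', e1, e2, e3⟩ := ends_of_path hn (h1 P hP)
    have hsub : ({(v, u), (v', u')} : Finset (Fin n × Fin n)) ⊆ D P := by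
      intro p hp
      rw [Finset.mem_insert, Finset.mem_singleton] at hp
      rw [hD]
      rcases hp with rfl | rfl
      · exact e1
      · exact e2
    have hne : (v, u) ≠ (v', u') := fun e => e3 (congrArg Prod.fst e)
    calc 2 = ({(v, u), (v', u')} : Finset (Fin n × Fin n)).card := (Finset.card_pair hne).symm
      _ ≤ (D P).card := Finset.card_le_card hsub
  have hdisj : ∀ P ∈ F, ∀ Q ∈ F, P ≠ Q → Disjoint (D P) (D Q) := by
    intro P hP Q hQ hPQ
    rw [Finset.disjoint_left]
    intro p hp hq
    rw [hD] at hp hq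
    exact not_contained hn hp hq (h2 P hP Q hQ hPQ)
  have hsub : F.biUnion D ⊆ (Finset.univ : Finset (Fin n)).offDiag := by
    intro p hp
    obtain ⟨P, hP, hp⟩ := Finset.mem_biUnion.mp hp
    rw [hD] at hp
    rw [Finset.mem_offDiag]
    refine ⟨Finset.mem_univ _, Finset.mem_univ _, ?_⟩
    intro e
    have := (hp p.2).mpr rfl
    rw [e] at this
    exact P.irrefl this
  have c1 := Finset.card_le_card hsub
  rw [Finset.card_biUnion hdisj, Finset.offDiag_card, Finset.card_univ, Fintype.card_fin] at c1
  have c2 : F.card * 2 ≤ ∑ P ∈ F, (D P).card := by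
    rw [← smul_eq_mul]
    exact Finset.card_nsmul_le_sum F _ 2 hcard
  rw [Nat.choose_two_right]
  have c3 : n * (n - 1) = n * n - n := by
    rw [Nat.mul_sub_one]
  rw [c3]
  omega

theorem lower {n : ℕ} (hn : 3 ≤ n) : ∃ F : Finset (SimpleGraph (Fin n)), F.card = n.choose 2 ∧
      (∀ P ∈ F, Nonempty (P ≃g SimpleGraph.pathGraph n)) ∧
      (∀ P ∈ F, ∀ Q ∈ F, P ≠ Q → (SimpleGraph.cycleGraph n).IsContained (P ⊔ Q)) := by
  by_cases h9 : 9 ≤ n
  · have h := family_of_sys hn (sys_big h9)
    rw [card_idx] at h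
    exact h
  · have h8 : n ≤ 8 := by omega
    interval_cases n
    · obtain ⟨T, hT⟩ := sys3
      have h := family_of_sys hn hT
      rw [Finset.card_range] at h
      exact h
    · obtain ⟨T, hT⟩ := sys4
      have h := family_of_sys hn hT
      rw [Finset.card_range] at h
      exact h
    · obtain ⟨T, hT⟩ := sys5
      have h := family_of_sys hn hT
      rw [Finset.card_range] at h
      exact h
    · obtain ⟨T, hT⟩ := sys6
      have h := family_of_sys hn hT
      rw [Finset.card_range] at h
      exact h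
    · obtain ⟨T, hT⟩ := sys7
      have h := family_of_sys hn hT
      rw [Finset.card_range] at h
      exact h
    · obtain ⟨T, hT⟩ := sys8
      have h := family_of_sys hn hT
      rw [Finset.card_range] at h
      exact h

/-- **MP_6b8b27_co, Q1.**  For every `n ≥ 3` the largest size of a family of Hamiltonian paths on
`n` vertices such that the union of any two different members contains a Hamiltonian cycle is
`n.choose 2`. -/
theorem result : ∀ n : ℕ, 3 ≤ n → IsGreatest
    {m : ℕ | ∃ F : Finset (SimpleGraph (Fin n)), F.card = m ∧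
      (∀ P ∈ F, Nonempty (P ≃g SimpleGraph.pathGraph n)) ∧
      (∀ P ∈ F, ∀ Q ∈ F, P ≠ Q → (SimpleGraph.cycleGraph n).IsContained (P ⊔ Q))}
    (n.choose 2) := by
  intro n hn
  refine ⟨lower hn, ?_⟩
  rintro m ⟨F, rfl, h1, h2⟩
  exact upper hn F h1 h2

end Pool.Agent.Results.MP_6b8b27_co.HamPathFamilies
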